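import Mathlib

set_option autoImplicit false

namespace Pool.Agent.MP_862149_co

open Finset

universe u v

section Merge

variable {V : Type u}

/-- The smallest equivalence relation identifying `a` and `b`. -/
def pr (a b : V) : Setoid V := Relation.EqvGen.setoid (fun x y => x = a ∧ y = b)

/-- Number of classes. -/
noncomputable def K (r : Setoid V) : ℕ := Nat.card (Quotient r)

theorem pr_rel (a b : V) : (pr a b) a b := Relation.EqvGen.rel _ _ ⟨rfl, rfl⟩

theorem pr_le {a b : V} {r : Setoid V} (h : r a b) : pr a b ≤ r := by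
  intro x y hxy
  induction hxy with
  | rel x y h' => obtain ⟨rfl, rfl⟩ := h'; exact h
  | refl x => exact r.refl' x
  | symm x y _ ih => exact r.symm' ih
  | trans x y z _ _ ih1 ih2 => exact r.trans' ih1 ih2

theorem pr_comm (a b : V) : pr a b = pr b a := by
  apply le_antisymm
  · exact pr_le ((pr b a).symm' (pr_rel b a))
  · exact pr_le ((pr a b).symm' (pr_rel a b))

/-- Explicit merge. -/
def mg (r : Setoid V) (a b : V) : Setoid V where
  r x y := r x y ∨ (r x a ∧ r b y) ∨ (r x b ∧ r a y)
  iseqv := by
    refine ⟨fun x => Or.inl (r.refl' x), ?_, ?_⟩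
    · rintro x y (h | ⟨h1, h2⟩ | ⟨h1, h2⟩)
      · exact Or.inl (r.symm' h)
      · exact Or.inr (Or.inr ⟨r.symm' h2, r.symm' h1⟩)
      · exact Or.inr (Or.inl ⟨r.symm' h2, r.symm' h1⟩)
    · rintro x y z (h | ⟨h1, h2⟩ | ⟨h1, h2⟩) (k | ⟨k1, k2⟩ | ⟨k1, k2⟩)
      · exact Or.inl (r.trans' h k)
      · exact Or.inr (Or.inl ⟨r.trans' h k1, k2⟩)
      · exact Or.inr (Or.inr ⟨r.trans' h k1, k2⟩)
      · exact Or.inr (Or.inl ⟨h1, r.trans' h2 k⟩)
      · exact Or.inr (Or.inl ⟨h1, k2⟩)
      · exact Or.inl (r.trans' h1 k2)
      · exact Or.inr (Or.inr ⟨h1, r.trans' h2 k⟩)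
      · exact Or.inl (r.trans' h1 k2)
      · exact Or.inr (Or.inr ⟨h1, k2⟩)

theorem sup_pr_eq (r : Setoid V) (a b : V) : r ⊔ pr a b = mg r a b := by
  apply le_antisymm
  · apply sup_le
    · intro x y h; exact Or.inl h
    · apply pr_le; exact Or.inr (Or.inl ⟨r.refl' a, r.refl' b⟩)
  · have h1 : r ≤ r ⊔ pr a b := le_sup_left
    have h2 : pr a b ≤ r ⊔ pr a b := le_sup_right
    have hab : (r ⊔ pr a b) a b := h2 (pr_rel a b)
    rintro x y (h | ⟨k1, k2⟩ | ⟨k1, k2⟩)
    · exact h1 h
    · exact (r ⊔ pr a b).trans' (h1 k1) ((r ⊔ pr a b).trans' hab (h1 k2))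
    · exact (r ⊔ pr a b).trans' (h1 k1)
        ((r ⊔ pr a b).trans' ((r ⊔ pr a b).symm' hab) (h1 k2))

theorem sup_pr_iff (r : Setoid V) (a b x y : V) :
    (r ⊔ pr a b) x y ↔ r x y ∨ (r x a ∧ r b y) ∨ (r x b ∧ r a y) := by
  rw [sup_pr_eq]; rfl

theorem sup_pr_of_rel {r : Setoid V} {a b : V} (h : r a b) : r ⊔ pr a b = r :=
  sup_eq_left.2 (pr_le h)

theorem K_sup_pr [Finite V] {r : Setoid V} {a b : V} (h : ¬ r a b) :
    K r = K (r ⊔ pr a b) + 1 := by
  classical
  unfold K
  have e1 : Option {q : Quotient r // q ≠ Quotient.mk r b} ≃ Quotient r :=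
    Equiv.optionSubtypeNe _
  have e2 : {q : Quotient r // q ≠ Quotient.mk r b} ≃ Quotient (r ⊔ pr a b) := by
    refine Equiv.ofBijective
      (fun q => Quotient.map' (s₁ := r) (s₂ := r ⊔ pr a b) id
        (fun x y hxy => (le_sup_left : r ≤ r ⊔ pr a b) hxy) q.1) ⟨?_, ?_⟩
    · rintro ⟨q1, h1⟩ ⟨q2, h2⟩ h12
      induction q1 using Quotient.inductionOn with
      | h x =>
      induction q2 using Quotient.inductionOn with
      | h y =>
      have hx : ¬ r x b := fun hh => h1 (Quotient.sound hh)
      have hy : ¬ r y b := fun hh => h2 (Quotient.sound hh)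
      have := Quotient.exact h12
      change (r ⊔ pr a b) x y at this
      rw [sup_pr_iff] at this
      rcases this with k | ⟨_, k⟩ | ⟨k, _⟩
      · exact Subtype.ext (Quotient.sound k)
      · exact absurd (r.symm' k) hy
      · exact absurd k hx
    · intro q
      induction q using Quotient.inductionOn with
      | h y =>
      by_cases hy : r y b
      · refine ⟨⟨Quotient.mk r a, fun hh => h (Quotient.exact hh)⟩, ?_⟩
        apply Quotient.sound
        change (r ⊔ pr a b) a y
        rw [sup_pr_iff]
        exact Or.inr (Or.inl ⟨r.refl' a, r.symm' hy⟩)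
      · exact ⟨⟨Quotient.mk r y, fun hh => hy (Quotient.exact hh)⟩, rfl⟩
  rw [← Nat.card_congr e1, Finite.card_option, Nat.card_congr e2]

end Merge

section Sum

variable {H : Type v} [DecidableEq H] {V : Type u} (vert : H → V) (Q : ℝ)

/-- Sum over all pairings of the half-edges in `s` (`n = s.card / 2`) of the weight of the resulting graph. -/
noncomputable def S : ℕ → Finset H → Setoid V → ℝ
  | 0, _, r => Q ^ K r
  | n + 1, s, r =>
    if h : s.Nonempty then
      ∑ x ∈ s.erase h.choose,
        (Q * S n ((s.erase h.choose).erase x) (r ⊔ pr (vert h.choose) (vert x))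
          - S n ((s.erase h.choose).erase x) r)
    else 0

theorem S_succ (n : ℕ) (s : Finset H) (r : Setoid V) (h : s.Nonempty) :
    S vert Q (n + 1) s r = ∑ x ∈ s.erase h.choose,
        (Q * S vert Q n ((s.erase h.choose).erase x) (r ⊔ pr (vert h.choose) (vert x))
          - S vert Q n ((s.erase h.choose).erase x) r) := by
  rw [S, dif_pos h]

theorem card_erase2 {s : Finset H} {a x : H} {n : ℕ} (hs : s.card = 2 * (n + 1)) (ha : a ∈ s)
    (hx : x ∈ s.erase a) : ((s.erase a).erase x).card = 2 * n := by
  rw [card_erase_of_mem hx, card_erase_of_mem ha, hs]; omega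

theorem S_pick (n : ℕ) : ∀ (s : Finset H) (r : Setoid V) (h : H), s.card = 2 * (n + 1) → h ∈ s →
    S vert Q (n + 1) s r = ∑ x ∈ s.erase h,
        (Q * S vert Q n ((s.erase h).erase x) (r ⊔ pr (vert h) (vert x))
          - S vert Q n ((s.erase h).erase x) r) := by
  induction n with
  | zero =>
    intro s r h hs hh
    have hne : s.Nonempty := ⟨h, hh⟩
    rw [S_succ vert Q 0 s r hne]
    set a := hne.choose with ha
    have ham : a ∈ s := hne.choose_spec
    by_cases hah : a = h
    · rw [hah]
    · have e1 : s.erase a = {h} := by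
        apply (eq_of_subset_of_card_le _ _).symm
        · simp [hh, Ne.symm hah]
        · rw [card_erase_of_mem ham, hs]; simp
      have e2 : s.erase h = {a} := by
        apply (eq_of_subset_of_card_le _ _).symm
        · simp [ham, hah]
        · rw [card_erase_of_mem hh, hs]; simp
      rw [e1, e2]
      simp only [sum_singleton, S, pr_comm (vert a) (vert h)]
  | succ n ih =>
    intro s r h hs hh
    have hne : s.Nonempty := ⟨h, hh⟩
    rw [S_succ vert Q (n + 1) s r hne]
    set a := hne.choose with ha
    have ham : a ∈ s := hne.choose_spec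
    by_cases hah : a = h
    · rw [hah]
    · have hha : h ∈ s.erase a := mem_erase.2 ⟨Ne.symm hah, hh⟩
      have hah' : a ∈ s.erase h := mem_erase.2 ⟨hah, ham⟩
      rw [← add_sum_erase _ _ hha, ← add_sum_erase _ _ hah']
      have hcomm : (s.erase a).erase h = (s.erase h).erase a := erase_right_comm
      rw [hcomm, pr_comm (vert a) (vert h)]
      congr 1
      set t := (s.erase h).erase a with ht
      -- expand both
      have L : ∀ x ∈ t, (Q * S vert Q (n + 1) ((s.erase a).erase x) (r ⊔ pr (vert a) (vert x))
          - S vert Q (n + 1) ((s.erase a).erase x) r) =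
          ∑ y ∈ t.erase x,
            (Q * (Q * S vert Q n ((t.erase x).erase y) (r ⊔ pr (vert a) (vert x) ⊔ pr (vert h) (vert y))
              - S vert Q n ((t.erase x).erase y) (r ⊔ pr (vert a) (vert x)))
            - (Q * S vert Q n ((t.erase x).erase y) (r ⊔ pr (vert h) (vert y))
              - S vert Q n ((t.erase x).erase y) r)) := by
        intro x hx
        have hx2 : x ∈ (s.erase a).erase h := by rw [hcomm]; exact hx
        have hx' : x ∈ s.erase a := mem_of_mem_erase hx2
        have hxh : x ≠ h := ne_of_mem_erase hx2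
        have hc : ((s.erase a).erase x).card = 2 * (n + 1) := card_erase2 hs ham hx'
        have hm : h ∈ (s.erase a).erase x := mem_erase.2 ⟨Ne.symm hxh, hha⟩
        have he : ((s.erase a).erase x).erase h = t.erase x := by
          rw [erase_right_comm, hcomm]
        rw [ih _ _ h hc hm, ih _ _ h hc hm, he, mul_sum, ← sum_sub_distrib]
      have R : ∀ y ∈ t, (Q * S vert Q (n + 1) ((s.erase h).erase y) (r ⊔ pr (vert h) (vert y))
          - S vert Q (n + 1) ((s.erase h).erase y) r) =
          ∑ x ∈ t.erase y,
            (Q * (Q * S vert Q n ((t.erase y).erase x) (r ⊔ pr (vert h) (vert y) ⊔ pr (vert a) (vert x))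
              - S vert Q n ((t.erase y).erase x) (r ⊔ pr (vert h) (vert y)))
            - (Q * S vert Q n ((t.erase y).erase x) (r ⊔ pr (vert a) (vert x))
              - S vert Q n ((t.erase y).erase x) r)) := by
        intro y hy
        have hy' : y ∈ s.erase h := mem_of_mem_erase hy
        have hya : y ≠ a := ne_of_mem_erase hy
        have hc : ((s.erase h).erase y).card = 2 * (n + 1) := card_erase2 hs hh hy'
        have hm : a ∈ (s.erase h).erase y := mem_erase.2 ⟨Ne.symm hya, hah'⟩
        have he : ((s.erase h).erase y).erase a = t.erase y := by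
          rw [erase_right_comm]
        rw [ih _ _ a hc hm, ih _ _ a hc hm, he, mul_sum, ← sum_sub_distrib]
      rw [sum_congr rfl L, sum_congr rfl R]
      rw [sum_comm' (t' := t) (s' := fun y => t.erase y)]
      · apply sum_congr rfl
        intro y _
        apply sum_congr rfl
        intro x _
        have e1 : (t.erase x).erase y = (t.erase y).erase x := erase_right_comm
        have e2 : r ⊔ pr (vert a) (vert x) ⊔ pr (vert h) (vert y) =
          r ⊔ pr (vert h) (vert y) ⊔ pr (vert a) (vert x) := sup_right_comm _ _ _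
        rw [e1, e2]; ring
      · intro x y
        simp only [mem_erase]
        tauto

/-- A class without half-edges contributes a factor `Q`. -/
theorem S_isolated [Finite V] (n : ℕ) : ∀ (s : Finset H) (r : Setoid V) (u w : V),
    (∀ x ∈ s, ¬ r (vert x) w) → ¬ r u w →
    S vert Q n s r = Q * S vert Q n s (r ⊔ pr u w) := by
  induction n with
  | zero =>
    intro s r u w _ huw
    simp only [S]
    rw [K_sup_pr huw, pow_succ]; ring
  | succ n ih =>
    intro s r u w hs huw
    by_cases hne : s.Nonempty
    · rw [S_succ vert Q n s r hne, S_succ vert Q n s _ hne, mul_sum]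
      set a := hne.choose with ha
      have ham : a ∈ s := hne.choose_spec
      apply sum_congr rfl
      intro x hx
      have hxs : x ∈ s := mem_of_mem_erase hx
      have haw : ¬ r w (vert a) := fun hh => hs a ham (r.symm' hh)
      have hxw : ¬ r w (vert x) := fun hh => hs x hxs (r.symm' hh)
      have haw' : ¬ r (vert a) w := hs a ham
      have hxw' : ¬ r (vert x) w := hs x hxs
      have h1 : S vert Q n ((s.erase a).erase x) r =
          Q * S vert Q n ((s.erase a).erase x) (r ⊔ pr u w) := by
        apply ih _ _ _ _ _ huw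
        intro y hy
        exact hs y (mem_of_mem_erase (mem_of_mem_erase hy))
      have h2 : S vert Q n ((s.erase a).erase x) (r ⊔ pr (vert a) (vert x)) =
          Q * S vert Q n ((s.erase a).erase x) (r ⊔ pr (vert a) (vert x) ⊔ pr u w) := by
        apply ih
        · intro y hy
          rw [sup_pr_iff]
          have := hs y (mem_of_mem_erase (mem_of_mem_erase hy))
          tauto
        · rw [sup_pr_iff]
          tauto
      rw [sup_right_comm r (pr u w), h1, h2]
      ring
    · simp [S, hne]

/-- A class with exactly one half-edge makes everything vanish. -/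
theorem S_deg1 [Finite V] (n : ℕ) (s : Finset H) (r : Setoid V) (w : V) (b : H)
    (hs : s.card = 2 * (n + 1)) (hb : b ∈ s) (hbw : r (vert b) w)
    (h : ∀ x ∈ s, x ≠ b → ¬ r (vert x) w) : S vert Q (n + 1) s r = 0 := by
  rw [S_pick vert Q n s r b hs hb]
  apply sum_eq_zero
  intro x hx
  have hxb : x ≠ b := ne_of_mem_erase hx
  have hxs : x ∈ s := mem_of_mem_erase hx
  have hxw := h x hxs hxb
  rw [sub_eq_zero]
  symm
  rw [pr_comm]
  apply S_isolated
  · intro y hy hyb
    have hys : y ∈ s := mem_of_mem_erase (mem_of_mem_erase hy)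
    have hyb' : y ≠ b := ne_of_mem_erase (mem_of_mem_erase hy)
    exact h y hys hyb' (r.trans' hyb hbw)
  · intro hh
    exact hxw (r.trans' hh hbw)

open Classical in
/-- Number of half-edges of `s` in the class of `v`. -/
noncomputable def deg (s : Finset H) (r : Setoid V) (v : V) : ℕ :=
  (s.filter (fun x => r (vert x) v)).card

theorem deg_erase_of_rel {s : Finset H} {r : Setoid V} {v : V} {x : H} (hx : x ∈ s)
    (h : r (vert x) v) : deg vert (s.erase x) r v + 1 = deg vert s r v := by
  classical
  unfold deg
  rw [filter_erase, card_erase_add_one]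
  exact mem_filter.2 ⟨hx, h⟩

theorem deg_erase_of_not_rel {s : Finset H} {r : Setoid V} {v : V} {x : H}
    (h : ¬ r (vert x) v) : deg vert (s.erase x) r v = deg vert s r v := by
  classical
  unfold deg
  rw [filter_erase, erase_eq_of_notMem]
  simp [h]

theorem deg_congr {s : Finset H} {r : Setoid V} {v v' : V} (h : r v v') :
    deg vert s r v = deg vert s r v' := by
  classical
  unfold deg
  congr 1
  apply filter_congr
  intro x _
  exact ⟨fun k => r.trans' k h, fun k => r.trans' k (r.symm' h)⟩

theorem deg_sup_of_not {s : Finset H} {r : Setoid V} {a b v : V} (ha : ¬ r v a) (hb : ¬ r v b) :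
    deg vert s (r ⊔ pr a b) v = deg vert s r v := by
  classical
  unfold deg
  congr 1
  apply filter_congr
  intro x _
  rw [sup_pr_iff]
  constructor
  · rintro (k | ⟨_, k⟩ | ⟨_, k⟩)
    · exact k
    · exact absurd (r.symm' k) hb
    · exact absurd (r.symm' k) ha
  · exact Or.inl

theorem deg_sup_left {s : Finset H} {r : Setoid V} {a b : V} (hab : ¬ r a b) :
    deg vert s (r ⊔ pr a b) a = deg vert s r a + deg vert s r b := by
  classical
  unfold deg
  rw [← card_union_of_disjoint]
  · congr 1
    ext x
    simp only [mem_filter, mem_union]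
    rw [sup_pr_iff]
    constructor
    · rintro ⟨hx, (k | ⟨_, k⟩ | ⟨k, _⟩)⟩
      · exact Or.inl ⟨hx, k⟩
      · exact absurd (r.symm' k) hab
      · exact Or.inr ⟨hx, k⟩
    · rintro (⟨hx, k⟩ | ⟨hx, k⟩)
      · exact ⟨hx, Or.inl k⟩
      · exact ⟨hx, Or.inr (Or.inr ⟨k, r.refl' a⟩)⟩
  · rw [disjoint_left]
    intro x h1 h2
    rw [mem_filter] at h1 h2
    exact hab (r.trans' (r.symm' h1.2) h2.2)

theorem deg_pos {s : Finset H} {r : Setoid V} {x : H} (hx : x ∈ s) :
    0 < deg vert s r (vert x) := by
  classical
  unfold deg
  rw [card_pos]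
  exact ⟨x, mem_filter.2 ⟨hx, r.refl' _⟩⟩

/-- Degree data: the class of `B` has `D` half-edges, every other class has none or three,
and there are `j` of the latter. -/
def T1 (s : Finset H) (r : Setoid V) (B : V) (D j : ℕ) : Prop :=
  deg vert s r B = D ∧ (∀ v, ¬ r v B → deg vert s r v = 0 ∨ deg vert s r v = 3) ∧
    s.card = D + 3 * j

/-- Same as `T1` with one more class, that of `w`, with two half-edges. -/
def T2 (s : Finset H) (r : Setoid V) (B w : V) (D j : ℕ) : Prop :=
  deg vert s r B = D ∧ deg vert s r w = 2 ∧ ¬ r w B ∧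
    (∀ v, ¬ r v B → ¬ r v w → deg vert s r v = 0 ∨ deg vert s r v = 3) ∧
    s.card = D + 2 + 3 * j

/-- The numerical recursion. -/
structure Rec (f : ℕ → ℕ → ℝ) : Prop where
  h00 : f 0 0 = 1
  h0 : ∀ j, f 0 (j + 1) = f 3 j
  hD0 : ∀ D, f (D + 2) 0 = (D + 1) * (Q - 1) * f D 0
  h1 : ∀ j : ℕ, f 1 (j + 1) = 3 * (j + 1) * (f 2 j - (Q + 1 + 3 * (j + 1) - 5) * f 0 j)
  hD : ∀ D j : ℕ, f (D + 2) (j + 1) = (D + 1) * (Q - 1) * f D (j + 1) +
    3 * (j + 1) * (f (D + 3) j - (Q + (D + 2) + 3 * (j + 1) - 5) * f (D + 1) j)

/-- The induction statement. -/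
def Stmt (f : ℕ → ℕ → ℝ) (n : ℕ) : Prop := ∀ (s : Finset H) (r : Setoid V), s.card = 2 * n →
  (∀ B D j, T1 vert s r B D j → S vert Q n s r = Q ^ K r * f D j) ∧
  (∀ B w D j, T2 vert s r B w D j → S vert Q n s r = (Q - 1 + D + 3 * j) * (Q ^ K r * f D j))

theorem main_pos [Finite V] (f : ℕ → ℕ → ℝ) (hf : Rec Q f) (n : ℕ) (ih : Stmt vert Q f n)
    (s : Finset H) (r : Setoid V) (hs : s.card = 2 * (n + 1)) (B : V) (D j : ℕ)
    (hT : T1 vert s r B (D + 1) j) : S vert Q (n + 1) s r = Q ^ K r * f (D + 1) j := by
  classical
  obtain ⟨hB, hoth, hcard⟩ := hT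
  have hex : ∃ h ∈ s, r (vert h) B := by
    by_contra hcon
    push Not at hcon
    have : deg vert s r B = 0 := by
      unfold deg
      rw [card_eq_zero, filter_eq_empty_iff]
      exact fun x hx => hcon x hx
    omega
  obtain ⟨h, hh, hhB⟩ := hex
  rw [S_pick vert Q n s r h hs hh]
  rw [← sum_filter_add_sum_filter_not (s.erase h) (fun x => r (vert x) B)]
  have hdeg1 : deg vert (s.erase h) r B = D := by
    have := deg_erase_of_rel vert hh hhB
    omega
  have cA : ((s.erase h).filter (fun x => r (vert x) B)).card = D := hdeg1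
  have cB : ((s.erase h).filter (fun x => ¬ r (vert x) B)).card = 3 * j := by
    have h1 := card_filter_add_card_filter_not (s := s.erase h) (fun x => r (vert x) B)
    rw [card_erase_of_mem hh] at h1
    omega
  have sA : ∑ x ∈ (s.erase h).filter (fun x => r (vert x) B),
      (Q * S vert Q n ((s.erase h).erase x) (r ⊔ pr (vert h) (vert x))
          - S vert Q n ((s.erase h).erase x) r) = D * ((Q - 1) * (Q ^ K r * f (D - 1) j)) := by
    rw [sum_congr rfl (g := fun _ => (Q - 1) * (Q ^ K r * f (D - 1) j)), sum_const, cA, nsmul_eq_mul]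
    intro x hx
    rw [mem_filter] at hx
    obtain ⟨hx1, hx2⟩ := hx
    have hxs := mem_of_mem_erase hx1
    rw [sup_pr_of_rel (r.trans' hhB (r.symm' hx2))]
    have hd2 := deg_erase_of_rel vert hx1 hx2
    have hT' : T1 vert ((s.erase h).erase x) r B (D - 1) j := by
      refine ⟨by omega, ?_, ?_⟩
      · intro v hv
        rw [deg_erase_of_not_rel vert (fun k => hv (r.trans' (r.symm' k) hx2)),
          deg_erase_of_not_rel vert (fun k => hv (r.trans' (r.symm' k) hhB))]
        exact hoth v hv
      · rw [card_erase_of_mem hx1, card_erase_of_mem hh]; omega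
    rw [(ih _ r (card_erase2 hs hh hx1)).1 B (D - 1) j hT']
    ring
  have sB : ∑ x ∈ (s.erase h).filter (fun x => ¬ r (vert x) B),
      (Q * S vert Q n ((s.erase h).erase x) (r ⊔ pr (vert h) (vert x))
          - S vert Q n ((s.erase h).erase x) r) =
        (3 * j : ℕ) * (Q ^ K r * f (D + 2) (j - 1) -
          (Q - 1 + D + 3 * (j - 1 : ℕ)) * (Q ^ K r * f D (j - 1))) := by
    rw [sum_congr rfl (g := fun _ => (Q ^ K r * f (D + 2) (j - 1) -
          (Q - 1 + D + 3 * (j - 1 : ℕ)) * (Q ^ K r * f D (j - 1)))), sum_const, cB, nsmul_eq_mul]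
    intro x hx
    have hj : 0 < 3 * j := by rw [← cB]; exact card_pos.2 ⟨x, hx⟩
    rw [mem_filter] at hx
    obtain ⟨hx1, hx2⟩ := hx
    have hxs := mem_of_mem_erase hx1
    have hdx : deg vert s r (vert x) = 3 := by
      rcases hoth _ hx2 with h0 | h3
      · have := deg_pos vert (r := r) hxs; omega
      · exact h3
    have hhx : ¬ r (vert h) (vert x) := fun k => hx2 (r.trans' (r.symm' k) hhB)
    have hdx1 : deg vert ((s.erase h).erase x) r (vert x) = 2 := by
      have h1 := deg_erase_of_not_rel vert (s := s) hhx
      have h2 := deg_erase_of_rel vert hx1 (r.refl' (vert x))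
      omega
    have hdB : deg vert ((s.erase h).erase x) r B = D := by
      rw [deg_erase_of_not_rel vert hx2, hdeg1]
    have hother : ∀ v, ¬ r v B → ¬ r v (vert x) →
        deg vert ((s.erase h).erase x) r v = 0 ∨ deg vert ((s.erase h).erase x) r v = 3 := by
      intro v hv hvx
      rw [deg_erase_of_not_rel vert (fun k => hvx (r.symm' k)),
          deg_erase_of_not_rel vert (fun k => hv (r.trans' (r.symm' k) hhB))]
      exact hoth v hv
    have hc : ((s.erase h).erase x).card = D + 3 * j - 1 := by
      rw [card_erase_of_mem hx1, card_erase_of_mem hh]; omega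
    have hT2 : T2 vert ((s.erase h).erase x) r B (vert x) D (j - 1) := by
      refine ⟨hdB, hdx1, hx2, hother, ?_⟩
      omega
    have hT1 : T1 vert ((s.erase h).erase x) (r ⊔ pr (vert h) (vert x)) B (D + 2) (j - 1) := by
      refine ⟨?_, ?_, ?_⟩
      · have e1 : (r ⊔ pr (vert h) (vert x)) B (vert h) :=
          (le_sup_left : r ≤ r ⊔ pr (vert h) (vert x)) (r.symm' hhB)
        rw [deg_congr vert e1, deg_sup_left vert hhx, deg_congr vert hhB, hdB, hdx1]
      · intro v hv
        have hv1 : ¬ r v (vert h) := by
          intro k; apply hv; rw [sup_pr_iff]; exact Or.inl (r.trans' k hhB)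
        have hv2 : ¬ r v (vert x) := by
          intro k; apply hv; rw [sup_pr_iff]
          exact Or.inr (Or.inr ⟨k, hhB⟩)
        rw [deg_sup_of_not vert hv1 hv2]
        exact hother v (fun k => hv1 (r.trans' k (r.symm' hhB))) hv2
      · omega
    rw [(ih _ _ (card_erase2 hs hh hx1)).1 B (D + 2) (j - 1) hT1,
      (ih _ _ (card_erase2 hs hh hx1)).2 B (vert x) D (j - 1) hT2, K_sup_pr hhx, pow_succ]
    ring
  rw [sA, sB]
  rcases D with _ | D
  · rcases j with _ | j
    · exfalso; omega
    · have := hf.h1 j
      simp only [Nat.add_sub_cancel, zero_add] at *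
      rw [this]; push_cast; ring
  · rcases j with _ | j
    · have := hf.hD0 D
      simp only [Nat.add_sub_cancel] at *
      rw [this]; push_cast; ring
    · have := hf.hD D j
      simp only [Nat.add_sub_cancel] at *
      rw [this]; push_cast; ring

theorem stmt_all [Finite V] (f : ℕ → ℕ → ℝ) (hf : Rec Q f) (n : ℕ) : Stmt vert Q f n := by
  classical
  induction n with
  | zero =>
    intro s r hs
    have hs0 : s = ∅ := by rw [← card_eq_zero]; omega
    subst hs0
    constructor
    · rintro B D j ⟨h1, _, h3⟩
      have : D = 0 ∧ j = 0 := by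
        rw [card_empty] at h3; omega
      obtain ⟨rfl, rfl⟩ := this
      rw [hf.h00]; simp [S]
    · rintro B w D j ⟨_, h2, _⟩
      simp [deg] at h2
  | succ n ih =>
    intro s r hs
    have key : ∀ B D j, T1 vert s r B D j → S vert Q (n + 1) s r = Q ^ K r * f D j := by
      intro B D j hT
      rcases D with _ | D
      · obtain ⟨hB, hoth, hcard⟩ := hT
        rcases j with _ | j
        · exfalso; omega
        · have hne : s.Nonempty := by rw [← card_pos]; omega
          obtain ⟨x, hx⟩ := hne
          have hxB : ¬ r (vert x) B := by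
            intro k
            have := deg_pos vert (r := r) hx
            rw [deg_congr vert k] at this
            omega
          have h3 : deg vert s r (vert x) = 3 := by
            rcases hoth _ hxB with h0 | h3
            · have := deg_pos vert (r := r) hx; omega
            · exact h3
          have hT' : T1 vert s r (vert x) (2 + 1) j := by
            refine ⟨h3, ?_, by omega⟩
            intro v hv
            by_cases hvB : r v B
            · left; rw [deg_congr vert hvB]; exact hB
            · exact hoth v hvB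
          rw [main_pos vert Q f hf n ih s r hs (vert x) 2 j hT', hf.h0]
      · exact main_pos vert Q f hf n ih s r hs B D j hT
    refine ⟨key, ?_⟩
    rintro B w D j ⟨hB, hw, hwB, hoth, hcard⟩
    have hex : ∃ a ∈ s, r (vert a) w := by
      by_contra hcon
      push Not at hcon
      have : deg vert s r w = 0 := by
        unfold deg
        rw [card_eq_zero, filter_eq_empty_iff]
        exact fun x hx => hcon x hx
      omega
    obtain ⟨a, ha, haw⟩ := hex
    have hd1 : deg vert (s.erase a) r w = 1 := by
      have := deg_erase_of_rel vert ha haw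
      omega
    have hex2 : ∃ b ∈ s.erase a, r (vert b) w := by
      by_contra hcon
      push Not at hcon
      have : deg vert (s.erase a) r w = 0 := by
        unfold deg
        rw [card_eq_zero, filter_eq_empty_iff]
        exact fun x hx => hcon x hx
      omega
    obtain ⟨b, hb, hbw⟩ := hex2
    have hd0 : deg vert ((s.erase a).erase b) r w = 0 := by
      have := deg_erase_of_rel vert hb hbw
      omega
    have hno : ∀ y ∈ (s.erase a).erase b, ¬ r (vert y) w := by
      intro y hy k
      have := deg_pos vert (r := r) hy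
      rw [deg_congr vert k] at this
      omega
    rw [S_pick vert Q n s r a hs ha, ← add_sum_erase _ _ hb]
    have t1 : Q * S vert Q n ((s.erase a).erase b) (r ⊔ pr (vert a) (vert b))
        - S vert Q n ((s.erase a).erase b) r = (Q - 1) * (Q ^ K r * f D j) := by
      rw [sup_pr_of_rel (r.trans' haw (r.symm' hbw))]
      have hT' : T1 vert ((s.erase a).erase b) r B D j := by
        refine ⟨?_, ?_, ?_⟩
        · rw [deg_erase_of_not_rel vert (fun k => hwB (r.trans' (r.symm' hbw) k)),
            deg_erase_of_not_rel vert (fun k => hwB (r.trans' (r.symm' haw) k)), hB]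
        · intro v hv
          by_cases hvw : r v w
          · left; rw [deg_congr vert hvw]; exact hd0
          · rw [deg_erase_of_not_rel vert (fun k => hvw (r.trans' (r.symm' k) hbw)),
              deg_erase_of_not_rel vert (fun k => hvw (r.trans' (r.symm' k) haw))]
            exact hoth v hv hvw
        · rw [card_erase_of_mem hb, card_erase_of_mem ha]; omega
      rw [(ih _ r (card_erase2 hs ha hb)).1 B D j hT']
      ring
    have t2 : ∑ x ∈ (s.erase a).erase b,
        (Q * S vert Q n ((s.erase a).erase x) (r ⊔ pr (vert a) (vert x))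
          - S vert Q n ((s.erase a).erase x) r) = (D + 3 * j : ℕ) * (Q ^ K r * f D j) := by
      rw [sum_congr rfl (g := fun _ => (Q ^ K r * f D j)), sum_const, nsmul_eq_mul]
      · congr 2
        rw [card_erase_of_mem hb, card_erase_of_mem ha]; omega
      · intro x hx
        have hxw := hno x hx
        have hx1 : x ∈ s.erase a := mem_of_mem_erase hx
        have hxb : x ≠ b := ne_of_mem_erase hx
        have hxs := mem_of_mem_erase hx1
        have hbm : b ∈ (s.erase a).erase x := mem_erase.2 ⟨Ne.symm hxb, hb⟩
        have hcc := card_erase2 hs ha hx1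
        have z : S vert Q n ((s.erase a).erase x) r = 0 := by
          rcases n with _ | n
          · exfalso
            rw [mul_zero, card_eq_zero] at hcc
            rw [hcc] at hbm; exact absurd hbm (notMem_empty b)
          · apply S_deg1 vert Q n _ r w b hcc hbm hbw
            intro y hy hyb
            exact hno y (mem_erase.2 ⟨hyb, mem_of_mem_erase hy⟩)
        have hax : ¬ r (vert a) (vert x) := fun k => hxw (r.trans' (r.symm' k) haw)
        have hdw1 : deg vert ((s.erase a).erase x) r (vert a) = 1 := by
          rw [deg_congr vert haw, deg_erase_of_not_rel vert hxw, hd1]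
        have hdx := deg_erase_of_rel vert hx1 (r.refl' (vert x))
        have hdx' : deg vert (s.erase a) r (vert x) = deg vert s r (vert x) :=
          deg_erase_of_not_rel vert hax
        have hT' : T1 vert ((s.erase a).erase x) (r ⊔ pr (vert a) (vert x)) B D j := by
          refine ⟨?_, ?_, ?_⟩
          · by_cases hxB : r (vert x) B
            · have e1 : (r ⊔ pr (vert a) (vert x)) B (vert a) := by
                rw [sup_pr_iff]
                exact Or.inr (Or.inr ⟨r.symm' hxB, r.refl' _⟩)
              rw [deg_congr vert e1, deg_sup_left vert hax, hdw1]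
              have := deg_congr vert (s := s) hxB
              omega
            · have hBa : ¬ r B (vert a) := fun k => hwB (r.symm' (r.trans' k haw))
              rw [deg_sup_of_not vert hBa (fun k => hxB (r.symm' k)),
                deg_erase_of_not_rel vert hxB,
                deg_erase_of_not_rel vert (fun k => hBa (r.symm' k)), hB]
          · intro v hv
            by_cases hvm : (r ⊔ pr (vert a) (vert x)) v (vert a)
            · rw [deg_congr vert hvm, deg_sup_left vert hax, hdw1]
              have hxB : ¬ r (vert x) B := by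
                intro k
                apply hv
                refine (r ⊔ pr (vert a) (vert x)).trans' hvm ?_
                rw [sup_pr_iff]
                exact Or.inr (Or.inl ⟨r.refl' _, k⟩)
              have := hoth (vert x) hxB hxw
              have h0 := deg_pos vert (r := r) hxs
              omega
            · have hva : ¬ r v (vert a) := by
                intro k; apply hvm; rw [sup_pr_iff]; exact Or.inl k
              have hvx : ¬ r v (vert x) := by
                intro k; apply hvm; rw [sup_pr_iff]; exact Or.inr (Or.inr ⟨k, r.refl' _⟩)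
              rw [deg_sup_of_not vert hva hvx,
                deg_erase_of_not_rel vert (fun k => hvx (r.symm' k)),
                deg_erase_of_not_rel vert (fun k => hva (r.symm' k))]
              apply hoth v _ (fun k => hva (r.trans' k (r.symm' haw)))
              intro k; apply hv; rw [sup_pr_iff]; exact Or.inl k
          · rw [card_erase_of_mem hx1, card_erase_of_mem ha]; omega
        rw [z, (ih _ _ hcc).1 B D j hT', K_sup_pr hax, pow_succ]
        ring
    rw [t1, t2]
    push_cast
    ring

end Sum

end Pool.Agent.MP_862149_co
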