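import Mathlib
import Pool.Agent.Lib.MP_862149_co.Flow

set_option autoImplicit false

namespace Pool.Agent.MP_862149_co

open Finset

universe u v

section Psi

variable {V : Type u} (Q : ℝ)

/-- Deletion-contraction weight of a list of edges on the classes of `r`. -/
noncomputable def Psi : List (V × V) → Setoid V → ℝ
  | [], r => Q ^ K r
  | e :: es, r => Q * Psi es (r ⊔ pr e.1 e.2) - Psi es r

theorem S_eq_sum_Psi {H : Type v} [DecidableEq H] (vert : H → V) (n : ℕ) :
    ∀ (s : Finset H), ∃ (ι : Type v) (_ : Fintype ι) (p : ι → List (V × V)),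
      ∀ r, S vert Q n s r = ∑ i, Psi Q (p i) r := by
  classical
  induction n with
  | zero =>
    intro s
    refine ⟨PUnit, inferInstance, fun _ => [], fun r => ?_⟩
    simp [S, Psi]
  | succ n ih =>
    intro s
    by_cases hne : s.Nonempty
    · choose ι hι p hp using ih
      refine ⟨Σ x : {x // x ∈ s.erase hne.choose}, ι ((s.erase hne.choose).erase x.1), ?_,
        fun i => (vert hne.choose, vert i.1.1) :: p _ i.2, ?_⟩
      · have : ∀ t, Fintype (ι t) := hι
        infer_instance
      · intro r
        rw [S_succ vert Q n s r hne, ← Finset.sum_coe_sort, Fintype.sum_sigma]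
        apply sum_congr rfl
        intro x _
        rw [hp, hp, mul_sum, ← sum_sub_distrib]
        rfl
    · refine ⟨PEmpty, inferInstance, fun i => i.elim, fun r => ?_⟩
      simp [S, hne]

theorem exists_Psi_neg {H : Type v} [DecidableEq H] (vert : H → V) (n : ℕ) (s : Finset H)
    (r : Setoid V) (h : S vert Q n s r < 0) : ∃ p : List (V × V), Psi Q p r < 0 := by
  obtain ⟨ι, _, p, hp⟩ := S_eq_sum_Psi Q vert n s
  by_contra hcon
  push Not at hcon
  rw [hp r] at h
  exact absurd (sum_nonneg (fun i _ => hcon (p i))) (not_le.2 h)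

end Psi

section Phi

variable {V : Type u} {E : Type v} [DecidableEq E] (Q : ℝ) (a b : E → V)

/-- Relation generated by a finite set of edges. -/
def gen (A : Finset E) : Setoid V := A.sup (fun e => pr (a e) (b e))

/-- Subset expansion. -/
noncomputable def Phi (F : Finset E) (r : Setoid V) : ℝ :=
  ∑ A ∈ F.powerset, (-1 : ℝ) ^ (F.card - A.card) * Q ^ (A.card + K (r ⊔ gen a b A))

theorem gen_insert (e : E) (A : Finset E) : gen a b (insert e A) = pr (a e) (b e) ⊔ gen a b A := by
  unfold gen; rw [sup_insert]

theorem gen_mono {A B : Finset E} (h : A ⊆ B) : gen a b A ≤ gen a b B := sup_mono h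

theorem Phi_empty (r : Setoid V) : Phi Q a b ∅ r = Q ^ K r := by
  simp [Phi, gen]

theorem Phi_insert {e : E} {F : Finset E} (he : e ∉ F) (r : Setoid V) :
    Phi Q a b (insert e F) r = Q * Phi Q a b F (r ⊔ pr (a e) (b e)) - Phi Q a b F r := by
  unfold Phi
  rw [sum_powerset_insert he, card_insert_of_notMem he, mul_sum, add_comm, sub_eq_add_neg,
    ← sum_neg_distrib]
  congr 1
  · apply sum_congr rfl
    intro A hA
    have hAF := mem_powerset.1 hA
    have heA : e ∉ A := fun h => he (hAF h)
    rw [card_insert_of_notMem heA, gen_insert, ← sup_assoc, Nat.add_sub_add_right,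
      add_right_comm, pow_succ]
    ring
  · apply sum_congr rfl
    intro A hA
    have hle := card_le_card (mem_powerset.1 hA)
    rw [Nat.succ_sub hle, pow_succ]
    ring

theorem Psi_eq_Phi (l : List E) (hl : l.Nodup) : ∀ r : Setoid V,
    Psi Q (l.map (fun e => (a e, b e))) r = Phi Q a b l.toFinset r := by
  induction l with
  | nil => intro r; simp [Psi, Phi_empty]
  | cons e l ih =>
    intro r
    rw [List.nodup_cons] at hl
    rw [List.map_cons, List.toFinset_cons, Phi_insert Q a b (by simpa using hl.1), Psi,
      ih hl.2, ih hl.2]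

theorem Phi_merge [Finite V] {F : Finset E} {r : Setoid V} {u w : V}
    (h : ¬ (r ⊔ gen a b F) u w) : Phi Q a b F r = Q * Phi Q a b F (r ⊔ pr u w) := by
  unfold Phi
  rw [mul_sum]
  apply sum_congr rfl
  intro A hA
  have hA' : gen a b A ≤ gen a b F := gen_mono a b (mem_powerset.1 hA)
  have hn : ¬ (r ⊔ gen a b A) u w := fun k => h (sup_le_sup_left hA' r k)
  rw [K_sup_pr hn, sup_right_comm r (pr u w), ← add_assoc, pow_succ]
  ring

theorem exists_not_of_ne_top {r : Setoid V} (h : r ≠ ⊤) : ∃ u w, ¬ r u w := by
  by_contra hcon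
  push Not at hcon
  exact h (eq_top_iff.2 (fun x y _ => hcon x y))

theorem exists_connected [Finite V] (hQ : 0 < Q) (F : Finset E) : ∀ (n : ℕ) (r : Setoid V),
    K (r ⊔ gen a b F) = n → Phi Q a b F r < 0 →
    ∃ r' : Setoid V, r' ⊔ gen a b F = ⊤ ∧ Phi Q a b F r' < 0 := by
  intro n
  induction n with
  | zero =>
    intro r hn hneg
    refine ⟨r, ?_, hneg⟩
    by_contra hcon
    obtain ⟨u, w, huw⟩ := exists_not_of_ne_top hcon
    have := K_sup_pr huw
    omega
  | succ n ih =>
    intro r hn hneg
    by_cases hcon : r ⊔ gen a b F = ⊤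
    · exact ⟨r, hcon, hneg⟩
    · obtain ⟨u, w, huw⟩ := exists_not_of_ne_top hcon
      have h1 := K_sup_pr huw
      have h2 := Phi_merge Q a b huw
      apply ih (r ⊔ pr u w)
      · rw [sup_right_comm]; omega
      · rw [h2] at hneg
        by_contra h3
        exact absurd (mul_nonneg hQ.le (not_lt.1 h3)) (not_le.2 hneg)

theorem bridge [Finite V] {F : Finset E} {r : Setoid V} {e : E} (he : e ∈ F)
    (hF : r ⊔ gen a b F = ⊤) (hne : r ⊔ gen a b (F.erase e) ≠ ⊤) : Phi Q a b F r = 0 := by
  have hins : F = insert e (F.erase e) := (insert_erase he).symm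
  have hn : ¬ (r ⊔ gen a b (F.erase e)) (a e) (b e) := by
    intro k
    apply hne
    rw [← sup_pr_of_rel k, sup_assoc, sup_comm (gen a b (F.erase e)), ← gen_insert, ← hins, hF]
  rw [hins, Phi_insert Q a b (notMem_erase e F), Phi_merge Q a b hn]
  ring

end Phi

section Comp

variable {V : Type u} {E : Type v} (a b : E → V) (r : Setoid V)

/-- Endpoint map on the quotient. -/
def endsQ (e : E) : Sym2 (Quotient r) := s(Quotient.mk r (a e), Quotient.mk r (b e))

theorem reach_iff (A : Finset E) (x y : V) :
    (SimpleGraph.fromEdgeSet (endsQ a b r '' (A : Set E))).Reachable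
      (Quotient.mk r x) (Quotient.mk r y) ↔ (r ⊔ gen a b A) x y := by
  constructor
  · rintro ⟨w⟩
    have key : ∀ (p q : Quotient r)
        (w : (SimpleGraph.fromEdgeSet (endsQ a b r '' (A : Set E))).Walk p q),
        ∀ x y : V, Quotient.mk r x = p → Quotient.mk r y = q → (r ⊔ gen a b A) x y := by
      intro p q w
      induction w with
      | nil =>
        intro x y hx hy
        exact (le_sup_left : r ≤ r ⊔ gen a b A) (Quotient.exact (hx.trans hy.symm))
      | cons hadj w ih =>
        rename_i p q' q
        intro x y hx hy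
        induction q' using Quotient.inductionOn with
        | h z =>
        refine (r ⊔ gen a b A).trans' ?_ (ih z y rfl hy)
        rw [SimpleGraph.fromEdgeSet_adj] at hadj
        obtain ⟨⟨e, he, hee⟩, _⟩ := hadj
        have hge : (r ⊔ gen a b A) (a e) (b e) :=
          (le_sup_right : gen a b A ≤ r ⊔ gen a b A)
            ((le_sup (f := fun e => pr (a e) (b e)) (Finset.mem_coe.1 he)) (pr_rel (a e) (b e)))
        have hr : r ≤ r ⊔ gen a b A := le_sup_left
        subst hx
        unfold endsQ at hee
        rw [Sym2.eq_iff] at hee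
        rcases hee with ⟨h1, h2⟩ | ⟨h1, h2⟩
        · exact (r ⊔ gen a b A).trans' (hr (Quotient.exact h1.symm))
            ((r ⊔ gen a b A).trans' hge (hr (Quotient.exact h2)))
        · exact (r ⊔ gen a b A).trans' (hr (Quotient.exact h2.symm))
            ((r ⊔ gen a b A).trans' ((r ⊔ gen a b A).symm' hge) (hr (Quotient.exact h1)))
    exact key _ _ w x y rfl rfl
  · intro h
    let G := SimpleGraph.fromEdgeSet (endsQ a b r '' (A : Set E))
    let R : Setoid V := Setoid.comap (Quotient.mk r) G.reachableSetoid
    have hle : r ⊔ gen a b A ≤ R := by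
      apply sup_le
      · intro x y hxy
        have : Quotient.mk r x = Quotient.mk r y := Quotient.sound hxy
        change G.Reachable _ _
        rw [this]
      · apply Finset.sup_le
        intro e he
        apply pr_le
        change G.Reachable _ _
        by_cases hab : Quotient.mk r (a e) = Quotient.mk r (b e)
        · rw [hab]
        · apply SimpleGraph.Adj.reachable
          rw [SimpleGraph.fromEdgeSet_adj]
          exact ⟨⟨e, he, rfl⟩, hab⟩
    exact hle h

theorem card_comp (A : Finset E) :
    Nat.card (SimpleGraph.fromEdgeSet (endsQ a b r '' (A : Set E))).ConnectedComponent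
      = K (r ⊔ gen a b A) := by
  unfold K
  symm
  let f : V → (SimpleGraph.fromEdgeSet (endsQ a b r '' (A : Set E))).ConnectedComponent :=
    fun x => SimpleGraph.connectedComponentMk _ (Quotient.mk r x)
  have hf : Function.Surjective f := by
    intro c
    induction c using SimpleGraph.ConnectedComponent.ind with
    | h q =>
    induction q using Quotient.inductionOn with
    | h x => exact ⟨x, rfl⟩
  have hk : r ⊔ gen a b A = Setoid.ker f := by
    ext x y
    rw [Setoid.ker_def]
    change _ ↔ SimpleGraph.connectedComponentMk _ _ = SimpleGraph.connectedComponentMk _ _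
    rw [SimpleGraph.ConnectedComponent.eq]
    exact (reach_iff a b r A x y).symm
  rw [hk]
  exact Nat.card_congr (Setoid.quotientKerEquivOfSurjective f hf)

theorem connected_of_top [Nonempty V] (A : Finset E) (h : r ⊔ gen a b A = ⊤) :
    (SimpleGraph.fromEdgeSet (endsQ a b r '' (A : Set E))).Connected := by
  haveI : Nonempty (Quotient r) := ⟨Quotient.mk r (Classical.arbitrary V)⟩
  refine ⟨?_⟩
  intro p q
  induction p using Quotient.inductionOn with
  | h x =>
  induction q using Quotient.inductionOn with
  | h y =>
  rw [reach_iff, h]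
  trivial

theorem K_le [Finite V] (A : Finset E) : K r ≤ A.card + K (r ⊔ gen a b A) := by
  classical
  induction A using Finset.induction_on with
  | empty => simp [gen]
  | insert e A he ih =>
    rw [card_insert_of_notMem he, gen_insert, sup_comm (pr _ _), ← sup_assoc]
    by_cases h : (r ⊔ gen a b A) (a e) (b e)
    · rw [sup_pr_of_rel h]; omega
    · have := K_sup_pr h; omega

end Comp

end Pool.Agent.MP_862149_co
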