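import Mathlib
import Pool.Agent.Lib.MP_862149_co.Graph

set_option autoImplicit false

/-! The number of nowhere-zero `ℤ_k`-flows is given by the subset expansion. -/

namespace Pool.Agent.MP_862149_co

open Finset

theorem char_sum {ι R : Type} [AddCommMonoid R] (ψ : AddChar R ℂ) (s : Finset ι) (f : ι → R) :
    ψ (∑ i ∈ s, f i) = ∏ i ∈ s, ψ (f i) := by
  classical
  induction s using Finset.induction_on with
  | empty => simp
  | insert i s hi ih => rw [sum_insert hi, prod_insert hi, AddChar.map_add_eq_mul, ih]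

section Count

variable {V E : Type} [Fintype V] [Fintype E] [DecidableEq V] [DecidableEq E]

/-- the conservation law at every vertex; the edge `e` goes from `s e` to `t e` -/
def Conserved (s t : E → V) (k : ℕ) (f : E → ZMod k) : Prop :=
  ∀ v : V, ∑ e with t e = v, f e = ∑ e with s e = v, f e

theorem sum_char (k : ℕ) [NeZero k] (g : V → ZMod k) :
    ∑ p : V → ZMod k, (ZMod.stdAddChar (∑ v, p v * g v) : ℂ) =
      if g = 0 then (k : ℂ) ^ Fintype.card V else 0 := by
  have h1 : ∀ p : V → ZMod k, (ZMod.stdAddChar (∑ v, p v * g v) : ℂ) =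
      ∏ v, (ZMod.stdAddChar (p v * g v) : ℂ) := fun p => char_sum _ _ _
  simp only [h1]
  have h2 := Finset.prod_univ_sum (fun _ : V => (univ : Finset (ZMod k)))
    (fun v x => (ZMod.stdAddChar (x * g v) : ℂ))
  rw [Fintype.piFinset_univ] at h2
  rw [← h2]
  have h3 : ∀ v, ∑ x : ZMod k, (ZMod.stdAddChar (x * g v) : ℂ) =
      if g v = 0 then (k : ℂ) else 0 := by
    intro v
    have := AddChar.sum_mulShift (R := ZMod k) (R' := ℂ) (g v) (ZMod.isPrimitive_stdAddChar k)
    rw [this, ZMod.card]
    push_cast
    rfl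
  simp only [h3]
  rw [Finset.prod_ite_zero]
  simp only [mem_univ, true_implies, prod_const, card_univ]
  congr 1
  exact propext ⟨fun h => funext h, fun h v => congrFun h v⟩

theorem net_sum (s t : E → V) (k : ℕ) (f : E → ZMod k) (p : V → ZMod k) :
    ∑ v, p v * (∑ e with t e = v, f e - ∑ e with s e = v, f e) =
      ∑ e, f e * (p (t e) - p (s e)) := by
  have h : ∀ u : E → V, ∑ v, p v * ∑ e with u e = v, f e = ∑ e, f e * p (u e) := by
    intro u
    simp only [mul_sum, sum_filter]
    rw [sum_comm]
    refine sum_congr rfl fun e _ => ?_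
    simp [mul_comm]
  simp only [mul_sub, sum_sub_distrib, h]

theorem count_flows (s t : E → V) (k : ℕ) [NeZero k] :
    (k : ℂ) ^ Fintype.card V *
      (Nat.card {f : E → ZMod k // (∀ e, f e ≠ 0) ∧ Conserved s t k f} : ℂ) =
    ∑ A ∈ (univ : Finset E).powerset, (-1 : ℂ) ^ (Fintype.card E - A.card) *
      ((k : ℂ) ^ A.card * (Nat.card {p : V → ZMod k // ∀ e ∈ A, p (t e) = p (s e)} : ℂ)) := by
  classical
  set N : Finset (E → ZMod k) := Fintype.piFinset (fun _ : E => (univ : Finset (ZMod k)).erase 0)
    with hN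
  have hmem : ∀ f, f ∈ N ↔ ∀ e, f e ≠ 0 := by
    intro f
    rw [hN, Fintype.mem_piFinset]
    simp
  -- left-hand side as a double sum
  have h1 : (k : ℂ) ^ Fintype.card V *
      (Nat.card {f : E → ZMod k // (∀ e, f e ≠ 0) ∧ Conserved s t k f} : ℂ) =
      ∑ f ∈ N, ∑ p : V → ZMod k, (ZMod.stdAddChar (∑ e, f e * (p (t e) - p (s e))) : ℂ) := by
    have h2 : ∀ f ∈ N, ∑ p : V → ZMod k,
        (ZMod.stdAddChar (∑ e, f e * (p (t e) - p (s e))) : ℂ) =
        if Conserved s t k f then (k : ℂ) ^ Fintype.card V else 0 := by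
      intro f _
      have h3 := sum_char k (fun v => ∑ e with t e = v, f e - ∑ e with s e = v, f e)
      simp only [net_sum] at h3
      rw [h3]
      congr 1
      apply propext
      constructor
      · intro h v
        exact sub_eq_zero.1 (congrFun h v)
      · intro h
        funext v
        exact sub_eq_zero.2 (h v)
    rw [sum_congr rfl h2, ← sum_filter, sum_const, nsmul_eq_mul, mul_comm]
    congr 2
    rw [Nat.card_eq_fintype_card, Fintype.card_subtype]
    congr 1
    ext f
    rw [mem_filter, mem_filter, hmem]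
    simp
  rw [h1, sum_comm]
  -- expand the product
  have h4 : ∀ p : V → ZMod k, ∑ f ∈ N,
      (ZMod.stdAddChar (∑ e, f e * (p (t e) - p (s e))) : ℂ) =
      ∑ A ∈ (univ : Finset E).powerset, (-1 : ℂ) ^ (Fintype.card E - A.card) *
        (if ∀ e ∈ A, p (t e) = p (s e) then (k : ℂ) ^ A.card else 0) := by
    intro p
    have h5 : ∀ f : E → ZMod k, (ZMod.stdAddChar (∑ e, f e * (p (t e) - p (s e))) : ℂ) =
        ∏ e, (ZMod.stdAddChar (f e * (p (t e) - p (s e))) : ℂ) :=
      fun f => char_sum _ _ _
    simp only [h5]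
    have h6 := Finset.prod_univ_sum (fun _ : E => (univ : Finset (ZMod k)).erase 0)
      (fun e x => (ZMod.stdAddChar (x * (p (t e) - p (s e))) : ℂ))
    rw [← hN] at h6
    rw [← h6]
    have h7 : ∀ e, ∑ x ∈ (univ : Finset (ZMod k)).erase 0,
        (ZMod.stdAddChar (x * (p (t e) - p (s e))) : ℂ) =
        (if p (t e) = p (s e) then (k : ℂ) else 0) + (-1) := by
      intro e
      have h8 := AddChar.sum_mulShift (R := ZMod k) (R' := ℂ) (p (t e) - p (s e))
        (ZMod.isPrimitive_stdAddChar k)
      rw [ZMod.card] at h8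
      have h9 := Finset.sum_erase_add (univ : Finset (ZMod k))
        (fun x => (ZMod.stdAddChar (x * (p (t e) - p (s e))) : ℂ)) (mem_univ 0)
      rw [h8, zero_mul, AddChar.map_zero_eq_one] at h9
      simp only [sub_eq_zero] at h9
      rw [eq_sub_of_add_eq h9, ← sub_eq_add_neg]
      congr 1
      split_ifs <;> simp
    simp only [h7]
    rw [Finset.prod_add]
    refine sum_congr rfl fun A _ => ?_
    rw [Finset.prod_ite_zero, prod_const, prod_const, mul_comm, card_sdiff_of_subset
      (subset_univ A), card_univ]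
    congr
  simp only [h4]
  rw [sum_comm]
  refine sum_congr rfl fun A _ => ?_
  rw [← mul_sum, ← sum_filter, sum_const, nsmul_eq_mul, mul_comm ((k : ℂ) ^ A.card)]
  congr 3
  rw [Nat.card_eq_fintype_card, Fintype.card_subtype]

end Count

section Poly

variable {V E : Type} [DecidableEq E] (a b : E → V) (r : Setoid V)

theorem card_potentials [Finite V] (k : ℕ) [NeZero k] (A : Finset E) :
    Nat.card {p : Quotient r → ZMod k //
      ∀ e ∈ A, p (Quotient.mk r (b e)) = p (Quotient.mk r (a e))} =
      k ^ K (r ⊔ gen a b A) := by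
  set R := r ⊔ gen a b A with hR
  have hle : ∀ x y : V, r x y → R x y := fun x y h => (le_sup_left : r ≤ R) h
  let F : (Quotient R → ZMod k) → {p : Quotient r → ZMod k //
      ∀ e ∈ A, p (Quotient.mk r (b e)) = p (Quotient.mk r (a e))} :=
    fun q => ⟨fun x => q (Quotient.lift (fun v : V => Quotient.mk R v)
      (fun x y h => Quotient.sound (hle x y h)) x), by
      intro e he
      have : Quotient.mk R (b e) = Quotient.mk R (a e) := Quotient.sound
        (R.symm' ((le_sup_right : gen a b A ≤ R)
          ((le_sup (f := fun e => pr (a e) (b e)) he) (pr_rel (a e) (b e)))))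
      show q (Quotient.mk R (b e)) = q (Quotient.mk R (a e))
      rw [this]⟩
  have hF : Function.Bijective F := by
    constructor
    · intro q q' h
      funext x
      induction x using Quotient.inductionOn with
      | h v => exact congrFun (congrArg Subtype.val h) (Quotient.mk r v)
    · rintro ⟨p, hp⟩
      have hker : R ≤ Setoid.ker (fun v : V => p (Quotient.mk r v)) := by
        apply sup_le
        · intro x y hxy
          show p _ = p _
          rw [Quotient.sound hxy]
        · apply Finset.sup_le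
          intro e he
          apply pr_le
          exact (hp e he).symm
      refine ⟨Quotient.lift (fun v : V => p (Quotient.mk r v)) (fun x y h => hker h), ?_⟩
      apply Subtype.ext
      funext x
      induction x using Quotient.inductionOn with
      | h v => rfl
  rw [← Nat.card_congr (Equiv.ofBijective F hF), Nat.card_fun, Nat.card_zmod]
  rfl

open Polynomial in
/-- the flow polynomial of the quotient graph, as a subset expansion -/
noncomputable def fpoly [Fintype E] : Polynomial ℤ :=
  ∑ A ∈ (univ : Finset E).powerset, (-1) ^ (Fintype.card E - A.card) *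
    X ^ (A.card + K (r ⊔ gen a b A) - K r)

theorem fpoly_eval [Fintype E] [Finite V] [Fintype (Quotient r)] [DecidableEq (Quotient r)]
    (k : ℕ) (hk : 1 ≤ k) : (fpoly a b r).eval (k : ℤ) =
      Nat.card {f : E → ZMod k // (∀ e, f e ≠ 0) ∧
        Conserved (fun e => Quotient.mk r (a e)) (fun e => Quotient.mk r (b e)) k f} := by
  classical
  have : NeZero k := ⟨by omega⟩
  have hk0 : (k : ℂ) ≠ 0 := by exact_mod_cast (by omega : k ≠ 0)
  have h1 := count_flows (fun e => Quotient.mk r (a e)) (fun e => Quotient.mk r (b e)) k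
  simp only [card_potentials a b r k] at h1
  have hcard : Fintype.card (Quotient r) = K r := by
    unfold K
    rw [Nat.card_eq_fintype_card]
  rw [hcard] at h1
  have h2 : (k : ℂ) ^ K r * (((fpoly a b r).eval (k : ℤ) : ℤ) : ℂ) =
      ∑ A ∈ (univ : Finset E).powerset, (-1 : ℂ) ^ (Fintype.card E - A.card) *
      ((k : ℂ) ^ A.card * ((k ^ K (r ⊔ gen a b A) : ℕ) : ℂ)) := by
    unfold fpoly
    rw [Polynomial.eval_finsetSum]
    push_cast
    rw [mul_sum]
    refine sum_congr rfl fun A _ => ?_
    simp only [Polynomial.eval_mul, Polynomial.eval_pow, Polynomial.eval_neg,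
      Polynomial.eval_one, Polynomial.eval_X]
    have hle := K_le a b r A
    have h3 : (k : ℂ) ^ A.card * (k : ℂ) ^ K (r ⊔ gen a b A) =
        (k : ℂ) ^ K r * (k : ℂ) ^ (A.card + K (r ⊔ gen a b A) - K r) := by
      rw [← pow_add, ← pow_add]
      congr 1
      omega
    push_cast
    rw [h3]
    ring
  have h4 : (k : ℂ) ^ K r * (((fpoly a b r).eval (k : ℤ) : ℤ) : ℂ) = (k : ℂ) ^ K r *
      (Nat.card {f : E → ZMod k // (∀ e, f e ≠ 0) ∧
        Conserved (fun e => Quotient.mk r (a e)) (fun e => Quotient.mk r (b e)) k f} : ℂ) := by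
    rw [h2, h1]
  have h5 := mul_left_cancel₀ (pow_ne_zero _ hk0) h4
  exact_mod_cast h5

theorem fpoly_aeval [Fintype E] [Finite V] (Q : ℝ) :
    Q ^ K r * Polynomial.aeval Q (fpoly a b r) = Phi Q a b univ r := by
  unfold fpoly Phi
  rw [map_sum, mul_sum]
  refine sum_congr rfl fun A _ => ?_
  have hle := K_le a b r A
  simp only [map_mul, map_pow, map_neg, map_one, Polynomial.aeval_X, card_univ]
  have h3 : Q ^ (A.card + K (r ⊔ gen a b A)) =
      Q ^ K r * Q ^ (A.card + K (r ⊔ gen a b A) - K r) := by
    rw [← pow_add]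
    congr 1
    omega
  rw [h3]
  ring

end Poly

end Pool.Agent.MP_862149_co
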