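import Mathlib
import Pool.Agent.Lib.MP_862149_co.Flow

set_option autoImplicit false
set_option maxRecDepth 1000000

namespace Pool.Agent.MP_862149_co

/-- `G j D`: integer version of the recursion, `2 ^ ((D + 3 j) / 2)` times the sum of the flow polynomials at `11 / 2`
over all pairings of the half-edges of one vertex of degree `D` and `j` cubic vertices. -/
def G : ℕ → ℕ → ℤ
  | 0, 0 => 1
  | 0, 1 => 0
  | 0, D + 2 => 9 * (D + 1) * G 0 D
  | j + 1, 0 => G j 3
  | j + 1, 1 => 6 * (j + 1) * (G j 2 - (6 * (j + 1) + 3) * G j 0)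
  | j + 1, D + 2 => 9 * (D + 1) * G (j + 1) D +
      6 * (j + 1) * (G j (D + 3) - (2 * (D + 2) + 6 * (j + 1) + 1) * G j (D + 1))
termination_by j D => (j, D)

/-- Computation of a row from the previous one, positive and negative parts. -/
def go (c : ℕ) : ℕ → ℕ → ℕ → ℕ → ℕ → ℕ → ℕ → List (ℕ × ℕ) → List (ℕ × ℕ)
  | _, _, _, _, _, _, _, [] => []
  | _, _, _, _, _, _, _, [_] => []
  | D, p2, n2, p1, n1, pm, nm, (pc, nc) :: (pn, nn) :: rest =>
      (Nat.add (Nat.mul (9 * D) p2) (Nat.mul c (Nat.add pn (Nat.mul (2 * D + c + 3) nm))),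
       Nat.add (Nat.mul (9 * D) n2) (Nat.mul c (Nat.add nn (Nat.mul (2 * D + c + 3) pm)))) ::
      go c (D + 1) p1 n1
        (Nat.add (Nat.mul (9 * D) p2) (Nat.mul c (Nat.add pn (Nat.mul (2 * D + c + 3) nm))))
        (Nat.add (Nat.mul (9 * D) n2) (Nat.mul c (Nat.add nn (Nat.mul (2 * D + c + 3) pm))))
        pc nc ((pn, nn) :: rest)

/-- Next row. -/
def nxt (c : ℕ) : List (ℕ × ℕ) → List (ℕ × ℕ)
  | a0 :: a1 :: a2 :: a3 :: rest =>
      a3 :: go c 0 0 0 a3.1 a3.2 a0.1 a0.2 (a1 :: a2 :: a3 :: rest)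
  | _ => []

/-- Row zero. -/
def r0 : ℕ → ℕ → ℕ → List (ℕ × ℕ)
  | 0, _, _ => []
  | n + 1, D, x => (x, 0) :: (0, 0) :: r0 n (D + 2) (9 * (D + 1) * x)

/-- All rows. -/
def rows : ℕ → ℕ → List (ℕ × ℕ)
  | m, 0 => r0 m 0 1
  | m, j + 1 => nxt (6 * (j + 1)) (rows m j)

/-- The list `L` represents the values of `g` from `D` on. -/
def Good (L : List (ℕ × ℕ)) (D : ℕ) (g : ℕ → ℤ) : Prop :=
  ∀ i (h : i < L.length), ((L[i]).1 : ℤ) - ((L[i]).2 : ℤ) = g (D + i)

theorem good_cons {a : ℕ × ℕ} {L : List (ℕ × ℕ)} {D : ℕ} {g : ℕ → ℤ}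
    (ha : (a.1 : ℤ) - (a.2 : ℤ) = g D) (hL : Good L (D + 1) g) : Good (a :: L) D g := by
  intro i h
  rcases i with _ | i
  · simpa using ha
  · have := hL i (by simpa using h)
    simp only [List.getElem_cons_succ]
    rw [this]; congr 1; omega

theorem good_tail {a : ℕ × ℕ} {L : List (ℕ × ℕ)} {D : ℕ} {g : ℕ → ℤ}
    (h : Good (a :: L) D g) : Good L (D + 1) g := by
  intro i hi
  have := h (i + 1) (by simpa using hi)
  simp only [List.getElem_cons_succ] at this
  rw [this]; congr 1; omega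

theorem good_head {a : ℕ × ℕ} {L : List (ℕ × ℕ)} {D : ℕ} {g : ℕ → ℤ}
    (h : Good (a :: L) D g) : (a.1 : ℤ) - (a.2 : ℤ) = g D := by
  have := h 0 (by simp)
  simpa using this

theorem go_spec (c : ℕ) (new prev : ℕ → ℤ)
    (hnew : ∀ D : ℕ, new (D + 1) = 9 * D * new (D - 1) +
      c * (prev (D + 2) - (2 * D + c + 3) * prev D)) :
    ∀ (L : List (ℕ × ℕ)) (D p2 n2 p1 n1 pm nm : ℕ),
      (D : ℤ) * ((p2 : ℤ) - n2) = D * new (D - 1) → (p1 : ℤ) - n1 = new D →
      (pm : ℤ) - nm = prev D → Good L (D + 1) prev →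
      Good (go c D p2 n2 p1 n1 pm nm L) (D + 1) new ∧
        (go c D p2 n2 p1 n1 pm nm L).length = L.length - 1
  | [], D, p2, n2, p1, n1, pm, nm, _, _, _, _ => by
      refine ⟨fun i h => ?_, ?_⟩
      · simp [go] at h
      · simp [go]
  | [x], D, p2, n2, p1, n1, pm, nm, _, _, _, _ => by
      refine ⟨fun i h => ?_, ?_⟩
      · simp [go] at h
      · simp [go]
  | (pc, nc) :: (pn, nn) :: rest, D, p2, n2, p1, n1, pm, nm, h2, h1, hm, hL => by
      have hc := good_head hL
      have hL' := good_tail hL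
      have hn := good_head hL'
      simp only at hc hn
      have hval : ((Nat.add (Nat.mul (9 * D) p2)
          (Nat.mul c (Nat.add pn (Nat.mul (2 * D + c + 3) nm))) : ℕ) : ℤ) -
          ((Nat.add (Nat.mul (9 * D) n2)
          (Nat.mul c (Nat.add nn (Nat.mul (2 * D + c + 3) pm))) : ℕ) : ℤ) = new (D + 1) := by
        rw [hnew]
        simp only [Nat.add_eq, Nat.mul_eq]
        push_cast
        have e3 : (pn : ℤ) - nn = prev (D + 2) := hn
        linear_combination 9 * h2 + (c : ℤ) * e3 - (c : ℤ) * (2 * D + c + 3) * hm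
      have IH := go_spec c new prev hnew ((pn, nn) :: rest) (D + 1) p1 n1
        (Nat.add (Nat.mul (9 * D) p2) (Nat.mul c (Nat.add pn (Nat.mul (2 * D + c + 3) nm))))
        (Nat.add (Nat.mul (9 * D) n2) (Nat.mul c (Nat.add nn (Nat.mul (2 * D + c + 3) pm))))
        pc nc (by rw [h1]; simp) hval hc hL'
      refine ⟨good_cons hval IH.1, ?_⟩
      rw [go, List.length_cons, IH.2]
      simp

theorem nxt_spec (c : ℕ) (new prev : ℕ → ℤ)
    (hnew : ∀ D : ℕ, new (D + 1) = 9 * D * new (D - 1) +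
      c * (prev (D + 2) - (2 * D + c + 3) * prev D)) (h0 : new 0 = prev 3)
    (L : List (ℕ × ℕ)) (hL : Good L 0 prev) (hlen : 4 ≤ L.length) :
    Good (nxt c L) 0 new ∧ (nxt c L).length = L.length - 1 := by
  match L, hL, hlen with
  | a0 :: a1 :: a2 :: a3 :: rest, hL, _ =>
    have g0 := good_head hL
    have t1 := good_tail hL
    have t2 := good_tail t1
    have t3 := good_tail t2
    have g3 := good_head t3
    have hz : (a3.1 : ℤ) - (a3.2 : ℤ) = new 0 := by rw [g3, h0]
    have := go_spec c new prev hnew (a1 :: a2 :: a3 :: rest) 0 0 0 a3.1 a3.2 a0.1 a0.2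
      (by simp) hz g0 t1
    refine ⟨good_cons hz this.1, ?_⟩
    rw [nxt, List.length_cons, this.2]
    simp

theorem r0_spec : ∀ (n D x : ℕ), (x : ℤ) = G 0 D → G 0 (D + 1) = 0 →
    Good (r0 n D x) D (G 0) ∧ (r0 n D x).length = 2 * n
  | 0, D, x, _, _ => by
      refine ⟨fun i h => ?_, ?_⟩
      · simp [r0] at h
      · simp [r0]
  | n + 1, D, x, hx, h1 => by
      have e2 : G 0 (D + 2) = 9 * (D + 1) * G 0 D := by rw [G]
      have e3 : G 0 (D + 3) = 9 * ((D + 1 : ℕ) + 1) * G 0 (D + 1) := by rw [G]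
      have IH := r0_spec n (D + 2) (9 * (D + 1) * x)
        (by rw [e2, ← hx]; push_cast; ring)
        (by rw [show D + 2 + 1 = D + 3 from rfl, e3, h1, mul_zero])
      refine ⟨good_cons (by simpa using hx) (good_cons (by simpa using h1.symm) IH.1), ?_⟩
      rw [r0, List.length_cons, List.length_cons, IH.2]
      ring

theorem rows_spec (m : ℕ) : ∀ j, j + 3 ≤ 2 * m →
    Good (rows m j) 0 (G j) ∧ (rows m j).length = 2 * m - j
  | 0, _ => by
      have := r0_spec m 0 1 (by rw [G]; rfl) (by rw [G])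
      simpa [rows] using this
  | j + 1, h => by
      have IH := rows_spec m j (by omega)
      rw [rows]
      have := nxt_spec (6 * (j + 1)) (G (j + 1)) (G j) ?_ ?_ (rows m j) IH.1 (by rw [IH.2]; omega)
      · refine ⟨this.1, ?_⟩
        rw [this.2, IH.2]; omega
      · intro D
        rcases D with _ | D
        · have e : G (j + 1) 1 = 6 * (j + 1) * (G j 2 - (6 * (j + 1) + 3) * G j 0) := by rw [G]
          simp only [Nat.zero_add, e]
          push_cast; ring
        · have e : G (j + 1) (D + 2) = 9 * (D + 1) * G (j + 1) D +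
            6 * (j + 1) * (G j (D + 3) - (2 * (D + 2) + 6 * (j + 1) + 1) * G j (D + 1)) := by rw [G]
          rw [show D + 1 + 1 = D + 2 from rfl, e]
          simp only [Nat.add_sub_cancel]
          push_cast; ring
      · rw [G]

theorem table_check :
    Nat.blt ((rows 170 333).getD 3 (0, 0)).1 ((rows 170 333).getD 3 (0, 0)).2 = true := by
  decide +kernel

theorem G_neg : G 333 3 < 0 := by
  have hs := rows_spec 170 333 (by norm_num)
  have hlen : 3 < (rows 170 333).length := by rw [hs.2]; norm_num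
  have h := hs.1 3 hlen
  have hc := table_check
  rw [Nat.blt_eq, List.getD_eq_getElem _ _ hlen] at hc
  rw [← show 0 + 3 = 3 from rfl, ← h]
  simp only [Nat.zero_add] at *
  omega

end Pool.Agent.MP_862149_co
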