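import Mathlib
import Pool.Agent.Lib.MP_862149_co.Flow
import Pool.Agent.Lib.MP_862149_co.Graph
import Pool.Agent.Lib.MP_862149_co.Table
import Pool.Agent.Lib.MP_862149_co.FlowCount

set_option autoImplicit false

/-! The disproof of helper84 (see `S09876.lean`), copied here so that it can be used without the
frozen statement. -/

namespace Pool.Agent.MP_862149_co

open Finset

/-- Normalised real version of the integer table. -/
noncomputable def fR (D j : ℕ) : ℝ := (G j D : ℝ) / (Real.sqrt 2) ^ (D + 3 * j)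

theorem sqrt2_sq : (Real.sqrt 2) ^ 2 = 2 := Real.sq_sqrt (by norm_num)

theorem sqrt2_ne : (Real.sqrt 2) ≠ 0 := by positivity

theorem fR_rec : Rec (11 / 2) fR where
  h00 := by simp [fR, G]
  h0 j := by
    have e : G (j + 1) 0 = G j 3 := by rw [G]
    unfold fR
    rw [e]
    congr 2
    ring
  hD0 D := by
    have e : G 0 (D + 2) = 9 * (D + 1) * G 0 D := by rw [G]
    unfold fR
    rw [e, show D + 2 + 3 * 0 = (D + 3 * 0) + 2 by ring, pow_add, sqrt2_sq]
    have := pow_ne_zero (D + 3 * 0) sqrt2_ne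
    push_cast
    field_simp
    ring
  h1 j := by
    have e : G (j + 1) 1 = 6 * (j + 1) * (G j 2 - (6 * (j + 1) + 3) * G j 0) := by rw [G]
    unfold fR
    rw [e, show 1 + 3 * (j + 1) = (0 + 3 * j) + 2 + 2 by ring,
      show 2 + 3 * j = (0 + 3 * j) + 2 by ring, pow_add _ (0 + 3 * j + 2), pow_add _ (0 + 3 * j),
      sqrt2_sq]
    have := pow_ne_zero (0 + 3 * j) sqrt2_ne
    push_cast
    field_simp
    ring
  hD D j := by
    have e : G (j + 1) (D + 2) = 9 * (D + 1) * G (j + 1) D +
      6 * (j + 1) * (G j (D + 3) - (2 * (D + 2) + 6 * (j + 1) + 1) * G j (D + 1)) := by rw [G]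
    unfold fR
    rw [e, show D + 2 + 3 * (j + 1) = (D + 1 + 3 * j) + 2 + 2 by ring,
      show D + 3 * (j + 1) = (D + 1 + 3 * j) + 2 by ring,
      show D + 3 + 3 * j = (D + 1 + 3 * j) + 2 by ring,
      pow_add _ (D + 1 + 3 * j + 2), pow_add _ (D + 1 + 3 * j), sqrt2_sq]
    have := pow_ne_zero (D + 1 + 3 * j) sqrt2_ne
    push_cast
    field_simp
    ring

theorem fR_neg : fR 3 333 < 0 := by
  unfold fR
  apply div_neg_of_neg_of_pos
  · exact_mod_cast G_neg
  · positivity

/-- Total sum over all cubic pairings on 334 vertices. -/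
theorem total_neg : S (H := Fin 334 × Fin 3) (V := Fin 334) Prod.fst (11 / 2) 501 Finset.univ ⊥ < 0 := by
  classical
  have hcard : (Finset.univ : Finset (Fin 334 × Fin 3)).card = 2 * 501 := by
    rw [card_univ, Fintype.card_prod, Fintype.card_fin, Fintype.card_fin]
  have hdeg : ∀ v : Fin 334, deg (H := Fin 334 × Fin 3) Prod.fst univ (⊥ : Setoid (Fin 334)) v = 3 := by
    intro v
    unfold deg
    have : (univ.filter (fun x : Fin 334 × Fin 3 => (⊥ : Setoid (Fin 334)) x.1 v)) =
        ({v} : Finset (Fin 334)) ×ˢ (univ : Finset (Fin 3)) := by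
      ext ⟨x, y⟩
      rw [mem_filter, mem_product, mem_singleton, Setoid.bot_def]
      simp only [mem_univ, true_and, and_true]
    rw [this, card_product, card_singleton, card_univ, Fintype.card_fin]
  have hT : T1 (H := Fin 334 × Fin 3) Prod.fst univ (⊥ : Setoid (Fin 334)) 0 3 333 := by
    refine ⟨hdeg 0, fun v _ => Or.inr (hdeg v), ?_⟩
    rw [hcard]
  have h := (stmt_all (H := Fin 334 × Fin 3) (V := Fin 334) Prod.fst (11 / 2) fR fR_rec 501
    univ ⊥ hcard).1 0 3 333 hT
  rw [h]
  exact mul_neg_of_pos_of_neg (by positivity) fR_neg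


/-- The graph: a connected bridgeless quotient of a pairing on 334 vertices with negative value. -/
theorem exists_graph : ∃ (n : ℕ) (a b : Fin n → Fin 334) (r : Setoid (Fin 334)),
    r ⊔ gen a b univ = ⊤ ∧ (∀ e, r ⊔ gen a b (univ.erase e) = ⊤) ∧
      Phi (11 / 2) a b univ r < 0 := by
  classical
  obtain ⟨p, hp⟩ := exists_Psi_neg (11 / 2) Prod.fst 501 univ ⊥ total_neg
  set a : Fin p.length → Fin 334 := fun i => (p.get i).1 with ha
  set b : Fin p.length → Fin 334 := fun i => (p.get i).2 with hb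
  have hpl : p = (List.finRange p.length).map (fun i => (a i, b i)) := by
    rw [ha, hb]
    simp only [Prod.mk.eta]
    exact (List.map_get_finRange p).symm
  have hPhi : Phi (11 / 2) a b univ ⊥ < 0 := by
    have h1 := Psi_eq_Phi (11 / 2) a b (List.finRange p.length) (List.nodup_finRange _) ⊥
    rw [← hpl] at h1
    have h2 : (List.finRange p.length).toFinset = univ := by
      ext i; simp
    rw [h2] at h1
    rw [← h1]; exact hp
  obtain ⟨r, hr, hneg⟩ := exists_connected (11 / 2) a b (by norm_num) univ _ ⊥ rfl hPhi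
  refine ⟨p.length, a, b, r, hr, ?_, hneg⟩
  intro e
  by_contra hcon
  exact absurd (bridge (11 / 2) a b (mem_univ e) hr hcon) (ne_of_lt hneg)

end Pool.Agent.MP_862149_co
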